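import Pool.Agent.W203.WS.Stm

set_option autoImplicit false

open MeasureTheory Finset

namespace Pool.Agent.W784.WS

open Pool.Agent.W203.WS

theorem prod_tel (n : ℕ) (a : Fin (n + 1) → ℂ) (b : ℂ) (A D : ℝ) (hA : ‖b‖ ≤ A)
    (hD : ∀ i, ‖a i - b‖ ≤ D) :
    ‖(∏ i, a i) - b ^ (n + 1)‖ ≤ (n + 1) * D * (A + D) ^ n := by
  have hA0 : 0 ≤ A := le_trans (norm_nonneg _) hA
  have hD0 : 0 ≤ D := le_trans (norm_nonneg _) (hD 0)
  induction n with
  | zero =>
    have := hD 0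
    simpa using this
  | succ n ih =>
    rw [Fin.prod_univ_succ]
    have h1 : a 0 * (∏ i : Fin (n + 1), a i.succ) - b ^ (n + 1 + 1)
        = a 0 * ((∏ i : Fin (n + 1), a i.succ) - b ^ (n + 1)) + (a 0 - b) * b ^ (n + 1) := by ring
    rw [h1]
    have h2 : ‖a 0‖ ≤ A + D := by
      have h2' : a 0 = b + (a 0 - b) := by ring
      calc ‖a 0‖ = ‖b + (a 0 - b)‖ := by rw [← h2']
        _ ≤ ‖b‖ + ‖a 0 - b‖ := norm_add_le _ _
        _ ≤ A + D := add_le_add hA (hD 0)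
    have h3 := ih (fun i => a i.succ) (fun i => hD i.succ)
    have h4 : ‖b‖ ≤ A + D := by linarith
    have h5 : ‖b‖ ^ (n + 1) ≤ (A + D) ^ (n + 1) := pow_le_pow_left₀ (norm_nonneg _) h4 _
    calc ‖a 0 * ((∏ i : Fin (n + 1), a i.succ) - b ^ (n + 1)) + (a 0 - b) * b ^ (n + 1)‖
        ≤ ‖a 0 * ((∏ i : Fin (n + 1), a i.succ) - b ^ (n + 1))‖ + ‖(a 0 - b) * b ^ (n + 1)‖ :=
          norm_add_le _ _
      _ = ‖a 0‖ * ‖(∏ i : Fin (n + 1), a i.succ) - b ^ (n + 1)‖ + ‖a 0 - b‖ * ‖b‖ ^ (n + 1) := by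
          rw [norm_mul, norm_mul, norm_pow]
      _ ≤ (A + D) * ((n + 1) * D * (A + D) ^ n) + D * (A + D) ^ (n + 1) := by
          apply add_le_add
          · exact mul_le_mul h2 h3 (norm_nonneg _) (by linarith)
          · exact mul_le_mul (hD 0) h5 (by positivity) hD0
      _ = _ := by push_cast; ring

theorem pt (n : ℕ) (P C v A : ℝ) (hC : 0 < C) (hP : 1 ≤ P) (hv0 : 0 ≤ v) (hv2 : v ^ 2 ≤ P)
    (hA0 : 0 ≤ A) (hA1 : A ≤ 3 * P) (hA2 : v ≠ 0 → A ≤ P / v) (hn : 4 ≤ n) :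
    (C * v) * (A + C * v) ^ n ≤ C * (3 + C) ^ n * P ^ n * (2 * (1 + v ^ 2)⁻¹) := by
  have hP0 : 0 < P := by linarith
  rcases le_total v 1 with hv | hv
  · have h1 : A + C * v ≤ (3 + C) * P := by nlinarith
    have h2 : (A + C * v) ^ n ≤ ((3 + C) * P) ^ n := pow_le_pow_left₀ (by positivity) h1 _
    have h3 : v ≤ 2 * (1 + v ^ 2)⁻¹ := by
      rw [← div_eq_mul_inv, le_div_iff₀ (by positivity)]
      nlinarith [mul_nonneg hv0 hv0, mul_nonneg hv0 (mul_nonneg hv0 hv0)]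
    calc (C * v) * (A + C * v) ^ n ≤ (C * (2 * (1 + v ^ 2)⁻¹)) * ((3 + C) * P) ^ n := by
          apply mul_le_mul (mul_le_mul_of_nonneg_left h3 hC.le) h2 (by positivity) (by positivity)
      _ = _ := by rw [mul_pow]; ring
  · have hv' : 0 < v := by linarith
    have hA3 := hA2 hv'.ne'
    have h0 : v ≤ P / v := by
      rw [le_div_iff₀ hv']; nlinarith
    have h1 : A + C * v ≤ (3 + C) * P * v⁻¹ := by
      have : (3 + C) * P * v⁻¹ = 3 * (P / v) + C * (P / v) := by field_simp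
      rw [this]
      have h5 : C * v ≤ C * (P / v) := mul_le_mul_of_nonneg_left h0 hC.le
      have h6 : 0 ≤ P / v := by positivity
      linarith
    have h2 : (A + C * v) ^ n ≤ ((3 + C) * P * v⁻¹) ^ n := pow_le_pow_left₀ (by positivity) h1 _
    have hvi : v⁻¹ ≤ 1 := inv_le_one_of_one_le₀ hv
    have h7 : (v⁻¹) ^ n ≤ (v⁻¹) ^ 4 := pow_le_pow_of_le_one (by positivity) hvi hn
    have h3 : v * (v⁻¹) ^ n ≤ 2 * (1 + v ^ 2)⁻¹ := by
      calc v * (v⁻¹) ^ n ≤ v * (v⁻¹) ^ 4 := mul_le_mul_of_nonneg_left h7 hv0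
        _ ≤ 2 * (1 + v ^ 2)⁻¹ := by
          have h8 : v * (v⁻¹) ^ 4 = 1 / v ^ 3 := by field_simp
          rw [h8, ← div_eq_mul_inv, div_le_div_iff₀ (by positivity) (by positivity)]
          nlinarith [mul_nonneg (sub_nonneg.2 hv) (mul_nonneg hv0 hv0),
            mul_nonneg (sub_nonneg.2 hv) hv0, sq_nonneg v]
    calc (C * v) * (A + C * v) ^ n ≤ (C * v) * ((3 + C) * P * v⁻¹) ^ n :=
          mul_le_mul_of_nonneg_left h2 (by positivity)
      _ = C * ((3 + C) ^ n * P ^ n) * (v * (v⁻¹) ^ n) := by rw [mul_pow, mul_pow]; ring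
      _ ≤ C * ((3 + C) ^ n * P ^ n) * (2 * (1 + v ^ 2)⁻¹) :=
          mul_le_mul_of_nonneg_left h3 (by positivity)
      _ = _ := by ring

theorem t_R1 (h1 : S_IB) (h2 : S_DF) : S_R1 := by
  intro k s hk hs
  obtain ⟨C, hC, hDF⟩ := h2 k (by omega)
  obtain ⟨n, rfl⟩ : ∃ n, s = n + 1 := ⟨s - 1, by omega⟩
  have hn : 4 ≤ n := by omega
  refine ⟨2 * Real.pi * ((n + 1) * (C * (3 + C) ^ n)), by positivity, ?_⟩
  intro P ε θ hP hε hε1 hθ
  have hPr : (1 : ℝ) ≤ P := by exact_mod_cast hP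
  have hP0 : (0 : ℝ) < P := by linarith
  have hPk : (0 : ℝ) < (P : ℝ) ^ k := by positivity
  set K : ℝ := (n + 1) * (C * (3 + C) ^ n) * (P : ℝ) ^ n with hK
  have hK0 : 0 < K := by positivity
  set g : ℝ → ℝ := fun t => ε * (K * (2 * (1 + ((P : ℝ) ^ k * t) ^ 2)⁻¹)) with hg
  have hint0 : Integrable (fun x : ℝ => (1 + x ^ 2)⁻¹) := integrable_inv_one_add_sq
  have hint1 : Integrable (fun t : ℝ => (1 + ((P : ℝ) ^ k * t) ^ 2)⁻¹) :=
    hint0.comp_mul_left' hPk.ne'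
  have hgint : Integrable g := ((hint1.const_mul 2).const_mul K).const_mul ε
  have hg0 : ∀ t, 0 ≤ g t := fun t => by simp only [hg]; positivity
  have hval : ∫ t, g t = 2 * Real.pi * ((n + 1) * (C * (3 + C) ^ n)) * ε *
      (P : ℝ) ^ (((n + 1 : ℕ) : ℝ) - 1 - k) := by
    simp only [hg]
    rw [integral_const_mul, integral_const_mul, integral_const_mul]
    have h3 : ∫ t : ℝ, (1 + ((P : ℝ) ^ k * t) ^ 2)⁻¹ = |((P : ℝ) ^ k)⁻¹| • ∫ y : ℝ, (1 + y ^ 2)⁻¹ :=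
      Measure.integral_comp_mul_left (fun y : ℝ => (1 + y ^ 2)⁻¹) ((P : ℝ) ^ k)
    rw [h3, integral_univ_inv_one_add_sq, abs_of_pos (by positivity), smul_eq_mul]
    have h4 : (P : ℝ) ^ (((n + 1 : ℕ) : ℝ) - 1 - k) = (P : ℝ) ^ n * ((P : ℝ) ^ k)⁻¹ := by
      have h5 : (((n + 1 : ℕ) : ℝ) - 1 - k) = (n : ℝ) - (k : ℝ) := by push_cast; ring
      rw [h5, Real.rpow_sub hP0, Real.rpow_natCast, Real.rpow_natCast, div_eq_mul_inv]
    rw [h4, hK]
    ring
  rw [← hval]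
  refine le_trans ?_ (setIntegral_le_integral (s := Set.Icc (-T0 k P) (T0 k P)) hgint
    (Filter.Eventually.of_forall hg0))
  refine integral_mono_of_nonneg ?_ hgint.integrableOn ?_
  · refine Filter.Eventually.of_forall (fun t => ?_)
    have : 0 ≤ Kh ε t := by unfold Kh; positivity
    exact mul_nonneg this (norm_nonneg _)
  · refine (ae_restrict_iff' measurableSet_Icc).2 (Filter.Eventually.of_forall (fun t ht => ?_))
    have hKh : Kh ε t ≤ ε := by
      unfold Kh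
      have : Real.exp (-Real.pi * (ε * t) ^ 2) ≤ 1 := by
        apply Real.exp_le_one_iff.2
        have := mul_nonneg Real.pi_pos.le (sq_nonneg (ε * t))
        linarith
      nlinarith
    have hKh0 : 0 ≤ Kh ε t := by unfold Kh; positivity
    set v : ℝ := |t| * (P : ℝ) ^ k with hv
    have hv0 : 0 ≤ v := by positivity
    have htT : |t| ≤ T0 k P := abs_le.2 ht
    have hvP : v ^ 2 ≤ P := by
      have h6 : v ≤ (P : ℝ) ^ ((1 : ℝ) / 2) := by
        calc v ≤ T0 k P * (P : ℝ) ^ k := mul_le_mul_of_nonneg_right htT hPk.le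
          _ = (P : ℝ) ^ ((1 : ℝ) / 2) := by
            unfold T0
            rw [← Real.rpow_natCast, ← Real.rpow_add hP0]
            congr 1
            ring
      calc v ^ 2 ≤ ((P : ℝ) ^ ((1 : ℝ) / 2)) ^ 2 := pow_le_pow_left₀ hv0 h6 2
        _ = P := by
          rw [← Real.rpow_natCast, ← Real.rpow_mul hP0.le]
          norm_num
    obtain ⟨hJ1, hJ2⟩ := h1 k P t (by omega) hP
    have hA2 : v ≠ 0 → ‖J1 k P t‖ ≤ P / v := by
      intro hvne
      have ht0 : t ≠ 0 := by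
        rintro rfl
        exact hvne (by simp [hv])
      have h7 := hJ2 ht0
      have h8 : 1 / (|t| * (P : ℝ) ^ (k - 1)) = P / v := by
        obtain ⟨k', rfl⟩ : ∃ k', k = k' + 1 := ⟨k - 1, by omega⟩
        have ht1 : 0 < |t| := abs_pos.2 ht0
        rw [hv]
        simp only [Nat.add_sub_cancel]
        rw [pow_succ]
        field_simp
      rwa [h8] at h7
    have hD : ∀ i, ‖S k P t (θ i) - J1 k P t‖ ≤ C * v := by
      intro i
      have hθi := hθ i (Set.mem_univ i)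
      have := hDF P t (θ i) hP hθi.1 hθi.2
      calc _ ≤ C * |t| * (P : ℝ) ^ k := this
        _ = C * v := by rw [hv]; ring
    have h9 := prod_tel n (fun i => S k P t (θ i)) (J1 k P t) ‖J1 k P t‖ (C * v) le_rfl hD
    have h10 := pt n P C v ‖J1 k P t‖ hC hPr hv0 hvP (norm_nonneg _) hJ1 hA2 hn
    have h11 : ‖(∏ i, S k P t (θ i)) - J1 k P t ^ (n + 1)‖ ≤ K * (2 * (1 + v ^ 2)⁻¹) := by
      calc _ ≤ (n + 1) * (C * v) * (‖J1 k P t‖ + C * v) ^ n := h9
        _ = (n + 1) * ((C * v) * (‖J1 k P t‖ + C * v) ^ n) := by ring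
        _ ≤ (n + 1) * (C * (3 + C) ^ n * (P : ℝ) ^ n * (2 * (1 + v ^ 2)⁻¹)) :=
          mul_le_mul_of_nonneg_left h10 (by positivity)
        _ = _ := by rw [hK]; ring
    have h12 : ((P : ℝ) ^ k * t) ^ 2 = v ^ 2 := by
      rw [hv, mul_pow, mul_pow, sq_abs]; ring
    show Kh ε t * _ ≤ g t
    simp only [hg]
    rw [h12]
    exact mul_le_mul hKh h11 (norm_nonneg _) hε.le

end Pool.Agent.W784.WS
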